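import Pool.Agent.KS6_19.DA.L.T6.H4.SG.All

/-! # The spectrum when the iterates shrink to a boundary point (MP_ff3f8e_an) -/

open Set Metric Filter Topology Pool.Agent.Helper203.DS Pool.Agent.T6.H4.SG

noncomputable section

namespace Pool.Agent.KS6_19.Cls

/-- Translations that map `E` into itself. -/
def Tr (E : Set ℂ) : Set ℂ := {s | ∀ z ∈ E, z + s ∈ E}

/-- The dual cone of `Tr E`. -/
def Du (E : Set ℂ) : Set ℂ := {ζ | ∀ s ∈ Tr E, 0 ≤ (ζ * s).re}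

theorem small_of_notMem {T : Op} {P : Pt → Pt} {a : ℂ} {N : ℕ} (hS : Sit T P a N)
    (hSys : Sys (FF a P) (KS a P N) N) (l : ℂ) (hl : l ∉ spectrum ℂ T) (hlne : l ≠ 0)
    (hlle : ‖l‖ ≤ 1) : Small (FF a P) (KS a P N) := by
  have M := mods
  obtain ⟨r0, C0, hr0, hU1⟩ := M.ru1 T P a N hS hSys l hl
  obtain ⟨t, ht0, ht1, ht2⟩ : ∃ t : ℝ, 0 < t ∧ t < 1 ∧ 1 - t < r0 / 2 := by
    refine ⟨max (1 / 2) (1 - r0 / 4), ?_, ?_, ?_⟩
    · exact lt_max_of_lt_left (by norm_num)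
    · exact max_lt (by norm_num) (by linarith)
    · have := le_max_right (1 / 2 : ℝ) (1 - r0 / 4)
      linarith
  have hln : 0 < ‖l‖ := norm_pos_iff.2 hlne
  refine M.th1 (FF a P) (KS a P N) N hSys ((t : ℂ) * l) (r0 / 2) C0 ?_ ?_ (by linarith) ?_
  · rw [norm_mul, Complex.norm_real, Real.norm_eq_abs, abs_of_pos ht0]
    positivity
  · rw [norm_mul, Complex.norm_real, Real.norm_eq_abs, abs_of_pos ht0]
    nlinarith
  · intro μ hμ
    apply hU1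
    rw [mem_ball, dist_eq_norm] at hμ ⊢
    have h3 : ‖(t : ℂ) * l - l‖ < r0 / 2 := by
      have h4 : (t : ℂ) * l - l = ((t - 1 : ℝ) : ℂ) * l := by push_cast; ring
      rw [h4, norm_mul, Complex.norm_real, Real.norm_eq_abs, abs_of_nonpos (by linarith)]
      nlinarith
    calc ‖μ - l‖ = ‖(μ - (t : ℂ) * l) + ((t : ℂ) * l - l)‖ := by congr 1; ring
      _ ≤ ‖μ - (t : ℂ) * l‖ + ‖(t : ℂ) * l - l‖ := norm_add_le _ _
      _ < r0 := by linarith

theorem du_im {E : Set ℂ} {m : ℕ} (hb : closedBall (m : ℂ) 1 ⊆ Tr E) {ζ : ℂ} (hζ : ζ ∈ Du E) :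
    ‖ζ‖ ≤ m * ζ.re := by
  by_cases h0 : ζ = 0
  · subst h0; simp
  have hn : 0 < ‖ζ‖ := norm_pos_iff.2 h0
  obtain ⟨e, he⟩ : ∃ e : ℂ, e = -((starRingEnd ℂ) ζ / ‖ζ‖) := ⟨_, rfl⟩
  have hen : ‖e‖ = 1 := by
    rw [he, norm_neg, norm_div, Complex.norm_conj, Complex.norm_real, Real.norm_eq_abs,
      abs_of_pos hn, div_self hn.ne']
  have h1 : (m : ℂ) + e ∈ closedBall (m : ℂ) 1 := by
    rw [mem_closedBall, dist_eq_norm, add_sub_cancel_left, hen]
  have h2 := hζ _ (hb h1)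
  have h3 : ζ * e = -(‖ζ‖ : ℂ) := by
    rw [he, mul_neg, mul_div_assoc', Complex.mul_conj, Complex.normSq_eq_norm_sq]
    rw [neg_inj, div_eq_iff (by exact_mod_cast hn.ne')]
    push_cast
    ring
  rw [mul_add, h3, Complex.add_re, Complex.neg_re, Complex.ofReal_re] at h2
  have h4 : (ζ * (m : ℂ)).re = m * ζ.re := by
    rw [mul_comm, ← Complex.ofReal_natCast, Complex.re_ofReal_mul]
  rw [h4] at h2
  linarith

theorem spec_of_small {T : Op} {P : Pt → Pt} {a : ℂ} {N : ℕ} (hS : Sit T P a N)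
    (hSys : Sys (FF a P) (KS a P N) N) (h0 : (0 : ℂ) ∈ spectrum ℂ T)
    (hsmall : Small (FF a P) (KS a P N)) :
    ∃ (Φ : ℂ → ℂ) (n m : ℕ), DifferentiableOn ℂ Φ HH ∧ (∀ w ∈ HH, Φ (FF a P w) = Φ w + 1) ∧
      InjOn Φ (KS a P N n) ∧ closedBall (m : ℂ) 1 ⊆ Tr (Φ '' KS a P N n) ∧
      spectrum ℂ T = {l | l = 0 ∨ ∃ ζ ∈ Du (Φ '' KS a P N n), l = Complex.exp (-ζ)} := by
  have M := mods
  have hP := hS.comp
  obtain ⟨Φ, hΦd, hΦa, n, hinj⟩ := M.abel _ _ _ hSys hsmall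
  obtain ⟨⟨m, hm, hfat⟩, hprop⟩ := M.fat1 _ _ _ hSys hsmall Φ n hΦd hΦa hinj
  obtain ⟨Ψ, V, hF⟩ := M.fat2 _ _ _ hSys Φ n m hΦd hΦa hinj hm hfat hprop
  obtain ⟨TT, hTn, hTm, hTT, hT0, hTd⟩ := M.ops T P a N hS hSys n m Φ Ψ V hF
  obtain ⟨E, hE⟩ : ∃ E : Set ℂ, E = Φ '' KS a P N n := ⟨_, rfl⟩
  rw [← hE] at hTn hTm hTT
  have hEs : ESet E m := by rw [hE]; exact hF.eset
  have hS0 : (0 : ℂ) ∈ Tr E := fun z hz => by rw [add_zero]; exact hz
  have hS1 : (1 : ℂ) ∈ Tr E := fun z hz => hEs.one z hz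
  have hSa : ∀ s ∈ Tr E, ∀ t ∈ Tr E, s + t ∈ Tr E := by
    intro s hs t ht z hz
    rw [← add_assoc]
    exact ht _ (hs z hz)
  have hSb : closedBall (m : ℂ) 1 ⊆ Tr E := fun s hs z hz => hEs.fat z hz s hs
  have : NormOneClass Op := ⟨by
    have : Nontrivial DA := inferInstance
    exact ContinuousLinearMap.norm_id⟩
  have hchar := M.char Op T (Tr E) TT (N + n) m hS0 hS1 hSa hSb (fun s hs => hTn s hs)
    (fun s hs t ht => hTm s hs t ht) (fun s hs => hTT s hs) hT0 hTd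
  refine ⟨Φ, n, m, hΦd, hΦa, ?_, ?_, ?_⟩
  · intro u hu v hv huv
    rw [← hF.inv u hu, ← hF.inv v hv, huv]
  · rw [← hE]; exact hSb
  · rw [← hE]
    apply Set.Subset.antisymm
    · intro l hl
      by_cases hl0 : l = 0
      · exact Or.inl hl0
      · obtain ⟨ζ, hζ, hp⟩ := hchar l hl hl0
        exact Or.inr ⟨ζ, hp, hζ.symm⟩
    · rintro l (rfl | ⟨ζ, hp, rfl⟩)
      · exact h0
      · by_contra hl
        have hle := du_im hSb hp
        by_cases hζ0 : ζ = 0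
        · rw [hζ0, neg_zero, Complex.exp_zero] at hl
          exact hl (one_mem_spec hP)
        have hre : 0 < ζ.re := by
          have h1 : 0 < ‖ζ‖ := norm_pos_iff.2 hζ0
          have h2 : (0:ℝ) ≤ m := Nat.cast_nonneg m
          by_contra hcon
          push Not at hcon
          nlinarith
        obtain ⟨r0, C0, hr0, hU1⟩ := M.ru1 T P a N hS hSys _ hl
        obtain ⟨C2, hU2⟩ := M.ru2 T P a N hS hSys _ hl
        obtain ⟨hA, _⟩ := M.tra _ _ _ hSys n m Φ Ψ V hF (Complex.exp (-ζ)) C0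
        obtain ⟨_, hB⟩ := M.tra _ _ _ hSys n m Φ Ψ V hF (Complex.exp (-ζ)) C2
        have hA' := hA (hU1 _ (mem_ball_self hr0))
        have hB' := hB hU2
        rw [← hE] at hA' hB'
        have hA'' : U1E E (Complex.exp (-ζ)) (max C0 C2) := by
          intro q Mq hq hb z hz
          refine (hA' q Mq hq hb z hz).trans ?_
          have hM0 : 0 ≤ Mq := (norm_nonneg _).trans (hb z hz)
          exact mul_le_mul_of_nonneg_right (le_max_left _ _) hM0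
        have hB'' : U2E E (Complex.exp (-ζ)) (max C0 C2) (N + n) := by
          intro g Mg hg hb
          obtain ⟨f, hf1, hf2, hf3⟩ := hB' g Mg hg hb
          refine ⟨f, hf1, fun z hz => (hf2 z hz).trans ?_, hf3⟩
          have hM0 : 0 ≤ Mg := (norm_nonneg _).trans (hb z hz)
          exact mul_le_mul_of_nonneg_right (le_max_right _ _) hM0
        obtain ⟨s, hs, hlt⟩ := M.lp E m ζ (max C0 C2) (N + n) hEs hre hA'' hB''
        have h3 := hp s hs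
        linarith

/-- The union of the logarithmic spirals `exp (- x (1 + i r))`, `x ≥ 0`, for `s ≤ r ≤ t`, and
zero. -/
def Fan (s t : ℝ) : Set ℂ :=
  {l | l = 0 ∨ ∃ x y : ℝ, 0 ≤ x ∧ s * x ≤ y ∧ y ≤ t * x ∧ l = Complex.exp (-(x + y * Complex.I))}

theorem du_cone {E : Set ℂ} {m : ℕ} (hb : closedBall (m : ℂ) 1 ⊆ Tr E)
    (hne : ∃ ζ ∈ Du E, ζ ≠ 0) : ∃ s t : ℝ, s ≤ t ∧
      ∀ ζ : ℂ, ζ ∈ Du E ↔ 0 ≤ ζ.re ∧ s * ζ.re ≤ ζ.im ∧ ζ.im ≤ t * ζ.re := by
  have hre : ∀ ζ ∈ Du E, ζ ≠ 0 → 0 < ζ.re := by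
    intro ζ hζ h0
    have hle := du_im hb hζ
    have h1 : 0 < ‖ζ‖ := norm_pos_iff.2 h0
    have h2 : (0:ℝ) ≤ m := Nat.cast_nonneg m
    by_contra hcon
    push Not at hcon
    nlinarith
  have hsc : ∀ ζ ∈ Du E, ∀ c : ℝ, 0 ≤ c → (c : ℂ) * ζ ∈ Du E := by
    intro ζ hζ c hc s hs
    rw [mul_assoc, Complex.re_ofReal_mul]
    exact mul_nonneg hc (hζ s hs)
  let A : Set ℝ := {r | (1 : ℂ) + r * Complex.I ∈ Du E}
  have hAc : IsClosed A := by
    have : A = ⋂ s ∈ Tr E, {r : ℝ | 0 ≤ (((1 : ℂ) + r * Complex.I) * s).re} := by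
      ext r
      simp only [Set.mem_iInter, Set.mem_setOf_eq]
      exact Iff.rfl
    rw [this]
    refine isClosed_biInter fun s _ => ?_
    refine isClosed_le continuous_const ?_
    fun_prop
  have hAb : ∀ r ∈ A, |r| ≤ m := by
    intro r hr
    have h1 := du_im hb hr
    have h2 := Complex.abs_im_le_norm ((1 : ℂ) + r * Complex.I)
    simp at h1 h2
    linarith
  have hAn : A.Nonempty := by
    obtain ⟨ζ, hζ, h0⟩ := hne
    have h1 := hre ζ hζ h0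
    refine ⟨ζ.im / ζ.re, ?_⟩
    have h2 := hsc ζ hζ (ζ.re)⁻¹ (inv_nonneg.2 h1.le)
    have h3 : ((ζ.re)⁻¹ : ℝ) * ζ = (1 : ℂ) + ((ζ.im / ζ.re : ℝ) : ℂ) * Complex.I := by
      apply Complex.ext
      · simp [h1.ne']
      · simp; ring
    rw [h3] at h2
    exact h2
  have hAk : IsCompact A := by
    refine Metric.isCompact_of_isClosed_isBounded hAc ?_
    refine (Metric.isBounded_closedBall (x := (0:ℝ)) (r := m)).subset fun r hr => ?_
    rw [mem_closedBall, dist_zero_right, Real.norm_eq_abs]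
    exact hAb r hr
  obtain ⟨s, hs, hsmin⟩ := hAk.exists_isLeast hAn
  obtain ⟨t, ht, htmax⟩ := hAk.exists_isGreatest hAn
  have hconv : ∀ r : ℝ, s ≤ r → r ≤ t → r ∈ A := by
    intro r h1 h2 z hz
    have e1 := hs z hz
    have e2 := ht z hz
    simp only [Complex.mul_re, Complex.add_re, Complex.one_re, Complex.mul_im, Complex.add_im,
      Complex.one_im, Complex.ofReal_re, Complex.ofReal_im, Complex.I_re, Complex.I_im] at e1 e2 ⊢
    ring_nf at e1 e2 ⊢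
    rcases le_total 0 z.im with h3 | h3
    · nlinarith
    · nlinarith
  refine ⟨s, t, hsmin ht, fun ζ => ⟨fun hζ => ?_, fun h => ?_⟩⟩
  · by_cases h0 : ζ = 0
    · subst h0; simp
    have h1 := hre ζ hζ h0
    have h2 := hsc ζ hζ (ζ.re)⁻¹ (inv_nonneg.2 h1.le)
    have h3 : ((ζ.re)⁻¹ : ℝ) * ζ = (1 : ℂ) + ((ζ.im / ζ.re : ℝ) : ℂ) * Complex.I := by
      apply Complex.ext
      · simp [h1.ne']
      · simp; ring
    rw [h3] at h2
    have h4 : ζ.im / ζ.re ∈ A := h2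
    refine ⟨h1.le, ?_, ?_⟩
    · have := hsmin h4
      rwa [le_div_iff₀ h1] at this
    · have := htmax h4
      rwa [div_le_iff₀ h1] at this
  · obtain ⟨h1, h2, h3⟩ := h
    rcases h1.eq_or_lt with h4 | h4
    · rw [← h4] at h2 h3
      have h5 : ζ = 0 := Complex.ext h4.symm (by simp at h2 h3; simp; linarith)
      rw [h5]
      intro z _
      simp
    · have h5 : ζ.im / ζ.re ∈ A := hconv _ (by rwa [le_div_iff₀ h4]) (by rwa [div_le_iff₀ h4])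
      have h6 := hsc _ h5 ζ.re h1
      have h7 : (ζ.re : ℂ) * ((1 : ℂ) + ((ζ.im / ζ.re : ℝ) : ℂ) * Complex.I) = ζ := by
        apply Complex.ext
        · simp
        · simp; field_simp
      rwa [h7] at h6

theorem fan_of_cone {C : Set ℂ} {s t : ℝ}
    (h : ∀ ζ : ℂ, ζ ∈ C ↔ 0 ≤ ζ.re ∧ s * ζ.re ≤ ζ.im ∧ ζ.im ≤ t * ζ.re) :
    {l : ℂ | l = 0 ∨ ∃ ζ ∈ C, l = Complex.exp (-ζ)} = Fan s t := by
  ext l
  constructor
  · rintro (h0 | ⟨ζ, hζ, rfl⟩)
    · exact Or.inl h0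
    · rw [h] at hζ
      refine Or.inr ⟨ζ.re, ζ.im, hζ.1, hζ.2.1, hζ.2.2, ?_⟩
      rw [Complex.re_add_im]
  · rintro (h0 | ⟨x, y, h1, h2, h3, rfl⟩)
    · exact Or.inl h0
    · refine Or.inr ⟨x + y * Complex.I, ?_, rfl⟩
      rw [h]
      simp
      exact ⟨h1, h2, h3⟩

end Pool.Agent.KS6_19.Cls
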