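import Pool.Agent.KS6_19.DA.Main

/-! # Elementary form of the disc algebra (MP_ff3f8e_an) -/

open Set Metric Filter Topology Pool.Agent.Helper203.DS Pool.Agent.T6.H4.SG

noncomputable section

namespace Pool.Agent.KS6_19.Cls.Ele

/-- The disc algebra as a set of functions on the closed disc. -/
def A : Set (Pt → ℂ) := {f | ∃ g : ℂ → ℂ, ContinuousOn g (closedBall 0 1) ∧
  DifferentiableOn ℂ g (ball 0 1) ∧ ∀ z : Pt, f z = g z}

theorem mem_of (F : DA) : (fun z : Pt => F.1 z) ∈ A :=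
  ⟨ext F.1, continuousOn_da F, differentiableOn_da F, fun z => (ext_apply _ z).symm⟩

theorem exists_of {f : Pt → ℂ} (hf : f ∈ A) : ∃ F : DA, ∀ z : Pt, F.1 z = f z := by
  obtain ⟨g, hc, hd, he⟩ := hf
  obtain ⟨F, hF⟩ := exists_da g hc hd
  exact ⟨F, fun z => by rw [hF, he]⟩

/-- linear map between the elementary spaces -/
structure IsLin (T : (Pt → ℂ) → (Pt → ℂ)) : Prop where
  maps : ∀ f ∈ A, T f ∈ A
  add : ∀ f ∈ A, ∀ g ∈ A, T (f + g) = T f + T g
  smul : ∀ c : ℂ, ∀ f ∈ A, T (c • f) = c • T f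

theorem exists_lin {T : (Pt → ℂ) → (Pt → ℂ)} (hT : IsLin T) :
    ∃ T' : DA →ₗ[ℂ] DA, ∀ (F : DA) (z : Pt), (T' F).1 z = T (fun z => F.1 z) z := by
  choose G hG using fun F : DA => exists_of (hT.maps _ (mem_of F))
  refine ⟨{ toFun := G, map_add' := fun F K => ?_, map_smul' := fun c F => ?_ }, fun F z => hG F z⟩
  · apply da_ext
    intro z
    rw [add_apply, hG, hG, hG]
    have h := hT.add _ (mem_of F) _ (mem_of K)
    exact congrFun h z
  · apply da_ext
    intro z
    rw [RingHom.id_apply, smul_apply, hG, hG]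
    have h := hT.smul c _ (mem_of F)
    exact congrFun h z

/-- from an operator of `DA` to the elementary form -/
def low (S : DA →L[ℂ] DA) (f : Pt → ℂ) : Pt → ℂ := by
  classical
  exact if h : f ∈ A then fun z => (S (exists_of h).choose).1 z else 0

theorem low_apply (S : DA →L[ℂ] DA) (F : DA) : low S (fun z => F.1 z) = fun z => (S F).1 z := by
  unfold low
  rw [dif_pos (mem_of F)]
  have h := (exists_of (mem_of F)).choose_spec
  have h2 : (exists_of (mem_of F)).choose = F := da_ext h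
  rw [h2]

theorem low_lin (S : DA →L[ℂ] DA) : IsLin (low S) := by
  refine ⟨fun f hf => ?_, fun f hf g hg => ?_, fun c f hf => ?_⟩
  · obtain ⟨F, hF⟩ := exists_of hf
    have e : f = fun z => F.1 z := funext fun z => (hF z).symm
    rw [e, low_apply]
    exact mem_of _
  · obtain ⟨F, hF⟩ := exists_of hf
    obtain ⟨K, hK⟩ := exists_of hg
    have e : f = fun z => F.1 z := funext fun z => (hF z).symm
    have e' : g = fun z => K.1 z := funext fun z => (hK z).symm
    have e2 : f + g = fun z => (F + K).1 z := by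
      rw [e, e']; rfl
    rw [e2, low_apply, e, e', low_apply, low_apply, map_add]
    rfl
  · obtain ⟨F, hF⟩ := exists_of hf
    have e : f = fun z => F.1 z := funext fun z => (hF z).symm
    have e2 : c • f = fun z => (c • F).1 z := by
      rw [e]; rfl
    rw [e2, low_apply, e, low_apply, map_smul]
    rfl

theorem low_bdd (S : DA →L[ℂ] DA) : ∃ C : ℝ, ∀ f ∈ A, ∀ M : ℝ, (∀ z, ‖f z‖ ≤ M) →
    ∀ z, ‖low S f z‖ ≤ C * M := by
  refine ⟨‖S‖, fun f hf M hM z => ?_⟩
  obtain ⟨F, hF⟩ := exists_of hf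
  have e : f = fun z => F.1 z := funext fun z => (hF z).symm
  rw [e, low_apply]
  have hM0 : 0 ≤ M := (norm_nonneg _).trans (hM ⟨0, by simp⟩)
  have h1 : ‖F‖ ≤ M := norm_le_of hM0 fun z => by rw [hF]; exact hM z
  calc ‖(S F).1 z‖ ≤ ‖S F‖ := norm_apply_le _ _
    _ ≤ ‖S‖ * ‖F‖ := S.le_opNorm F
    _ ≤ ‖S‖ * M := mul_le_mul_of_nonneg_left h1 (ContinuousLinearMap.opNorm_nonneg S)

/-- The bounded operator of an endomorphism in elementary form. -/
theorem exists_op (T : (Pt → ℂ) → (Pt → ℂ)) (hT : IsLin T)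
    (hmul : ∀ f ∈ A, ∀ g ∈ A, T (f * g) = T f * T g) :
    ∃ S : Op, (∀ F : DA, T (fun z => F.1 z) = fun z => (S F).1 z) ∧
      (∀ f g : DA, S (f * g) = S f * S g) ∧
      ∀ k : ℂ, k ∈ spectrum ℂ S ↔
        ¬ ∃ S : (Pt → ℂ) → (Pt → ℂ), IsLin S ∧ (∃ C : ℝ, ∀ f ∈ A, ∀ M : ℝ, (∀ z, ‖f z‖ ≤ M) →
          ∀ z, ‖S f z‖ ≤ C * M) ∧ ∀ f ∈ A, S (T f - k • f) = f ∧ T (S f) - k • S f = f := by
  obtain ⟨T', hT'⟩ := exists_lin hT
  have hT'mul : ∀ f g : DA, T' (f * g) = T' f * T' g := by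
    intro F K
    apply da_ext
    intro z
    rw [mul_apply, hT', hT', hT']
    exact congrFun (hmul _ (mem_of F) _ (mem_of K)) z
  have hb : ∀ f : DA, ‖T' f‖ ≤ 1 * ‖f‖ := fun f => by
    rw [one_mul]; exact lin_norm_le T' hT'mul f
  have hTe : ∀ F : DA, T (fun z => F.1 z) = fun z => (T' F).1 z := fun F =>
    funext fun z => (hT' F z).symm
  have hTe2 : ∀ F : DA, T (fun z => F.1 z) = fun z => ((T'.mkContinuous 1 hb) F).1 z := hTe
  refine ⟨T'.mkContinuous 1 hb, hTe2, fun f g => hT'mul f g, ?_⟩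
  show ∀ k : ℂ, k ∈ spectrum ℂ (T'.mkContinuous 1 hb) ↔
      ¬ ∃ S : (Pt → ℂ) → (Pt → ℂ), IsLin S ∧ (∃ C : ℝ, ∀ f ∈ A, ∀ M : ℝ, (∀ z, ‖f z‖ ≤ M) →
      ∀ z, ‖S f z‖ ≤ C * M) ∧ ∀ f ∈ A, S (T f - k • f) = f ∧ T (S f) - k • S f = f
  intro k
  rw [mem_spec_iff, not_iff_not]
  constructor
  · rintro ⟨S, h1, h2⟩
    refine ⟨low S, low_lin S, low_bdd S, fun f hf => ?_⟩
    obtain ⟨F, hF⟩ := exists_of hf
    have e : f = fun z => F.1 z := funext fun z => (hF z).symm
    constructor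
    · have e2 : T f - k • f = fun z => (T' F - k • F).1 z := by
        rw [e, hTe]; rfl
      rw [e2, low_apply]
      have h3 := h1 F
      have h4 : S (T' F - k • F) = F := h3
      rw [h4, e]
    · rw [e, low_apply, hTe]
      have h3 : T' (S F) - k • S F = F := h2 F
      funext z
      have h4 := congrArg (fun K : DA => K.1 z) h3
      exact h4
  · rintro ⟨S, hS, ⟨C, hC⟩, h1⟩
    obtain ⟨S', hS'⟩ := exists_lin hS
    have hSe : ∀ F : DA, S (fun z => F.1 z) = fun z => (S' F).1 z := fun F =>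
      funext fun z => (hS' F z).symm
    have hb' : ∀ f : DA, ‖S' f‖ ≤ (max C 0) * ‖f‖ := fun F => by
      refine norm_le_of (by positivity) fun z => ?_
      rw [hS']
      refine (hC _ (mem_of F) ‖F‖ (fun z => norm_apply_le F z) z).trans ?_
      exact mul_le_mul_of_nonneg_right (le_max_left _ _) (norm_nonneg _)
    refine ⟨S'.mkContinuous (max C 0) hb', fun F => ?_, fun F => ?_⟩
    · apply da_ext
      intro z
      have e2 : T (fun z => F.1 z) - k • (fun z => F.1 z) =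
          fun z => (T' F - k • F).1 z := by
        rw [hTe]; rfl
      have h3 := (h1 _ (mem_of F)).1
      rw [e2, hSe] at h3
      exact congrFun h3 z
    · apply da_ext
      intro z
      have h3 := (h1 _ (mem_of F)).2
      rw [hSe, hTe] at h3
      exact congrFun h3 z

end Pool.Agent.KS6_19.Cls.Ele
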