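import Pool.Agent.KS6_19.DA.Step

/-! # The interior case with the multiplier (MP_ff3f8e_an) -/

open Set Metric Filter Topology Pool.Agent.Helper203.DS Pool.Agent.T6.H4.SG

noncomputable section

namespace Pool.Agent.KS6_19.Cls

theorem deriv_aux {T : DA →L[ℂ] DA} {Φ : Pt → Pt} (h : IsComp T Φ) (a : Pt) (ha : ‖(a:ℂ)‖ < 1)
    (q : DA) (hq : T Z - algebraMap ℂ DA (a:ℂ) = (Z - algebraMap ℂ DA (a:ℂ)) * q) :
    HasDerivAt (ext fun z : Pt => ((Φ z : Pt) : ℂ)) (q.1 a) (a : ℂ) := by
  have hab : (a : ℂ) ∈ ball (0 : ℂ) 1 := by rw [mem_ball_zero_iff]; exact ha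
  have hnb : ball (0 : ℂ) 1 ∈ 𝓝 (a : ℂ) := isOpen_ball.mem_nhds hab
  have hqd : DifferentiableAt ℂ (ext q.1) (a : ℂ) := (differentiableOn_da q).differentiableAt hnb
  have h1 : HasDerivAt (fun z : ℂ => (a : ℂ) + (z - a) * ext q.1 z)
      (1 * ext q.1 (a : ℂ) + ((a : ℂ) - a) * deriv (ext q.1) (a : ℂ)) (a : ℂ) := by
    have h2 : HasDerivAt (fun z : ℂ => z - (a : ℂ)) 1 (a : ℂ) := (hasDerivAt_id _).sub_const _
    exact (h2.mul hqd.hasDerivAt).const_add _
  rw [sub_self, zero_mul, add_zero, one_mul, ext_apply] at h1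
  refine h1.congr_of_eventuallyEq ?_
  filter_upwards [hnb] with z hz
  have hz' : z ∈ closedBall (0 : ℂ) 1 := ball_subset_closedBall hz
  rw [ext_of_mem _ hz', ext_of_mem _ hz']
  have h3 := congrArg (fun f : DA => f.1 ⟨z, hz'⟩) hq
  simp only [sub_apply, mul_apply, h.eq, Z_apply, algMap_apply] at h3
  rw [← h3]
  ring

theorem interior_case2 {T : DA →L[ℂ] DA} {Φ : Pt → Pt} (h : IsComp T Φ) (a : Pt)
    (ha : ‖(a:ℂ)‖ < 1)
    (hconv : Tendsto (fun n => (T ^ n) Z) atTop (𝓝 (algebraMap ℂ DA (a:ℂ)))) :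
    ∃ κ : ℂ, HasDerivAt (ext fun z : Pt => ((Φ z : Pt) : ℂ)) κ (a : ℂ) ∧
      spectrum ℂ T = {l : ℂ | l = 0 ∨ ∃ j : ℕ, l = κ ^ j} := by
  classical
  -- pointwise convergence
  have hnorm : Tendsto (fun n => ‖(T ^ n) Z - algebraMap ℂ DA (a:ℂ)‖) atTop (𝓝 0) := by
    rw [← tendsto_iff_norm_sub_tendsto_zero]
    exact hconv
  have hpt : Tendsto (fun n => (Φ^[n] a)) atTop (𝓝 a) := by
    rw [Topology.IsEmbedding.subtypeVal.tendsto_nhds_iff]
    rw [tendsto_iff_norm_sub_tendsto_zero]
    refine squeeze_zero (fun n => norm_nonneg _) (fun n => ?_) hnorm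
    have h1 := norm_apply_le ((T ^ n) Z - algebraMap ℂ DA (a:ℂ)) a
    rw [sub_apply, h.pow, algMap_apply, Z_apply] at h1
    exact h1
  have hfix : Φ a = a := by
    have h1 : Tendsto (fun n => Φ (Φ^[n] a)) atTop (𝓝 (Φ a)) := (h.cont.tendsto a).comp hpt
    have h2 : Tendsto (fun n => Φ^[n + 1] a) atTop (𝓝 a) := hpt.comp (tendsto_add_atTop_nat 1)
    have h3 : (fun n => Φ (Φ^[n] a)) = fun n => Φ^[n + 1] a := by
      funext n
      rw [Function.iterate_succ_apply']
    rw [h3] at h1
    exact tendsto_nhds_unique h1 h2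
  obtain ⟨q, hq⟩ := div_interior (T Z - algebraMap ℂ DA (a:ℂ)) a ha (by
    rw [sub_apply, h.eq, hfix, algMap_apply, Z_apply, sub_self])
  refine ⟨q.1 a, deriv_aux h a ha q hq, ?_⟩
  ext l
  constructor
  · intro hl
    by_contra hcon
    rw [Set.mem_ofPred_eq, not_or, not_exists] at hcon
    obtain ⟨hl0, hlj⟩ := hcon
    obtain ⟨N, hN⟩ := Wop_small h a ha hconv q hq l hl0
    have hdown : ∀ i, i ≤ N → Function.Bijective (fun f : DA => Wop T q (N - i) f - l • f) := by
      intro i
      induction i with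
      | zero => intro _; exact hN
      | succ i ih =>
        intro hi
        have h1 := ih (by omega)
        have e : N - i = N - (i + 1) + 1 := by omega
        rw [e] at h1
        exact (Wop_step h a ha hfix q hq (N - (i + 1)) l (hlj _)).mpr h1
    have h0 := hdown N le_rfl
    rw [Nat.sub_self] at h0
    exact (ic_bij q l).mpr h0 hl
  · rintro (rfl | ⟨j, rfl⟩)
    · by_contra hcon
      have hu : IsUnit T := ic_gen_unit T hcon
      have hiso := isometry_of_unit h hu
      have h1 : ∀ n : ℕ, ‖(T ^ n) Z - algebraMap ℂ DA (a:ℂ)‖ = ‖Z - algebraMap ℂ DA (a:ℂ)‖ := by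
        intro n
        apply ic_gen_iso T hiso
        apply da_ext
        intro z
        rw [h.pow, algMap_apply, algMap_apply]
      simp_rw [h1] at hnorm
      have h2 := tendsto_nhds_unique hnorm tendsto_const_nhds
      have h3 : Z - algebraMap ℂ DA (a:ℂ) = 0 := norm_eq_zero.mp h2.symm
      have h4 : ∀ z : Pt, (z : ℂ) = a := by
        intro z
        have := congrArg (fun f : DA => f.1 z) h3
        simp only [sub_apply, Z_apply, algMap_apply, zero_apply] at this
        exact sub_eq_zero.mp this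
      have h5 := h4 ⟨0, by simp⟩
      have h6 := h4 ⟨1, by simp⟩
      rw [← h5] at h6
      exact one_ne_zero h6
    · by_contra hcon
      have h0 := (ic_bij q _).mp hcon
      have hex : ∃ i, q.1 a ^ i = q.1 a ^ j := ⟨j, rfl⟩
      set j0 := Nat.find hex with hj0
      have hj0e : q.1 a ^ j0 = q.1 a ^ j := Nat.find_spec hex
      have hup : ∀ i, i ≤ j0 → Function.Bijective (fun f : DA => Wop T q i f - (q.1 a ^ j) • f) := by
        intro i
        induction i with
        | zero => intro _; exact h0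
        | succ i ih =>
          intro hi
          have h1 := ih (by omega)
          refine (Wop_step h a ha hfix q hq i _ ?_).mp h1
          intro he
          have := Nat.find_min hex (m := i) (by omega)
          exact this he.symm
      obtain ⟨f, hf⟩ := (hup j0 le_rfl).2 1
      have h1 := congrArg (fun f : DA => f.1 a) hf
      have h2 : (Wop T q j0 f).1 a = q.1 a ^ j0 * f.1 a := by
        have e : Wop T q j0 f = q ^ j0 * T f := rfl
        rw [e, mul_apply, pow_apply, h.eq, hfix]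
      simp only [sub_apply, smul_apply, one_apply, h2, hj0e, sub_self] at h1
      exact zero_ne_one h1



end Pool.Agent.KS6_19.Cls
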