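import Pool.Agent.KS6_19.DA.Inner

/-! # Classification of the spectra of the endomorphisms of the disc algebra (MP_ff3f8e_an) -/

open Set Metric Filter Topology Pool.Agent.Helper203.DS Pool.Agent.T6.H4.SG

noncomputable section

namespace Pool.Agent.KS6_19.Cls

/-- The points `φ^n(w) ≠ a`. -/
def Im (φ : Pt → Pt) (a : ℂ) (n : ℕ) : Set ℂ := {z | z ≠ a ∧ ∃ w : Pt, z = (φ^[n] w : Pt)}

theorem multiplier_lt {φ : Pt → Pt} {T : Op} (hP : IsComp T φ) {a : ℂ} (ha : ‖a‖ < 1)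
    (hc : ConvTo φ a) {κ : ℂ} (hκ : HasDerivAt (ext fun z : Pt => ((φ z : Pt) : ℂ)) κ a) :
    ‖κ‖ < 1 := by
  have hab : a ∈ ball (0 : ℂ) 1 := by rw [mem_ball_zero_iff]; exact ha
  have hnb : ball (0 : ℂ) 1 ∈ 𝓝 a := isOpen_ball.mem_nhds hab
  obtain ⟨aP, haP⟩ : ∃ aP : Pt, (aP : ℂ) = a := ⟨⟨a, ball_subset_closedBall hab⟩, rfl⟩
  -- fixed point
  have hfix : φ aP = aP := by
    have h0 : Tendsto (fun n : ℕ => φ^[n] aP) atTop (𝓝 aP) := by
      rw [tendsto_subtype_rng, Metric.tendsto_atTop]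
      intro ε hε
      obtain ⟨n0, hn0⟩ := hc ε hε
      refine ⟨n0, fun n hn => ?_⟩
      rw [dist_eq_norm, haP]
      exact hn0 n hn aP
    have h1 : Tendsto (fun n : ℕ => φ (φ^[n] aP)) atTop (𝓝 (φ aP)) :=
      (hP.cont.tendsto aP).comp h0
    have h2 : Tendsto (fun n : ℕ => φ (φ^[n] aP)) atTop (𝓝 aP) := by
      have := h0.comp (tendsto_add_atTop_nat 1)
      refine this.congr fun n => ?_
      exact Function.iterate_succ_apply' φ n aP
    exact tendsto_nhds_unique h1 h2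
  have hG : ∀ n : ℕ, HasDerivAt (ext fun z : Pt => ((φ^[n] z : Pt) : ℂ)) (κ ^ n) a := by
    intro n
    induction n with
    | zero =>
      rw [pow_zero]
      refine (hasDerivAt_id a).congr_of_eventuallyEq ?_
      filter_upwards [hnb] with z hz
      rw [ext_of_mem _ (ball_subset_closedBall hz)]
      rfl
    | succ n ih =>
      have e0 : ext (fun z : Pt => ((φ z : Pt) : ℂ)) a = a := by
        have := ext_apply (fun z : Pt => ((φ z : Pt) : ℂ)) aP
        rw [haP, hfix, haP] at this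
        exact this
      have h1 : HasDerivAt (ext fun z : Pt => ((φ^[n] z : Pt) : ℂ)) (κ ^ n)
          (ext (fun z : Pt => ((φ z : Pt) : ℂ)) a) := by rw [e0]; exact ih
      have h2 := h1.comp a hκ
      rw [pow_succ]
      refine h2.congr_of_eventuallyEq ?_
      filter_upwards [hnb] with z hz
      rw [Function.comp_apply, ext_of_mem _ (ball_subset_closedBall hz),
        ext_of_mem _ (ball_subset_closedBall hz), ext_apply]
      rfl
  obtain ⟨R, hR⟩ : ∃ R : ℝ, R = (1 - ‖a‖) / 2 := ⟨_, rfl⟩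
  have hR0 : 0 < R := by rw [hR]; linarith
  have hsub : closedBall a R ⊆ ball (0 : ℂ) 1 := by
    intro z hz
    rw [mem_closedBall, dist_eq_norm] at hz
    rw [mem_ball_zero_iff]
    have : ‖z‖ ≤ ‖z - a‖ + ‖a‖ := by
      calc ‖z‖ = ‖(z - a) + a‖ := by rw [sub_add_cancel]
        _ ≤ _ := norm_add_le _ _
    rw [hR] at hz
    linarith
  obtain ⟨N, hN⟩ := hc (R / 2) (by linarith)
  have hdiff : DifferentiableOn ℂ (ext fun z : Pt => ((φ^[N] z : Pt) : ℂ)) (ball 0 1) := by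
    have h1 := differentiableOn_da ((T ^ N) Z)
    have h2 : ext ((T ^ N) Z).1 = ext fun z : Pt => ((φ^[N] z : Pt) : ℂ) := by
      congr 1
      funext z
      exact hP.pow N Z z
    rwa [h2] at h1
  have hd2 : DifferentiableOn ℂ (fun z => ext (fun z : Pt => ((φ^[N] z : Pt) : ℂ)) z - a)
      (closedBall a R) := (hdiff.mono hsub).sub_const a
  have hcl : closure (ball a R) = closedBall a R := closure_ball a hR0.ne'
  have hd3 : DiffContOnCl ℂ (fun z => ext (fun z : Pt => ((φ^[N] z : Pt) : ℂ)) z - a)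
      (ball a R) := by
    apply DifferentiableOn.diffContOnCl
    rw [hcl]; exact hd2
  have h3 := Complex.norm_deriv_le_of_forall_mem_sphere_norm_le (C := R / 2) hR0 hd3 (by
    intro z hz
    have hz' : z ∈ ball (0 : ℂ) 1 := hsub (sphere_subset_closedBall hz)
    rw [ext_of_mem _ (ball_subset_closedBall hz')]
    exact (hN N le_rfl _).le)
  have h4 : deriv (fun z => ext (fun z : Pt => ((φ^[N] z : Pt) : ℂ)) z - a) a = κ ^ N :=
    ((hG N).sub_const a).deriv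
  rw [h4, norm_pow] at h3
  have h5 : R / 2 / R = 1 / 2 := by field_simp
  rw [h5] at h3
  by_contra hcon
  push Not at hcon
  have h6 : 1 ≤ ‖κ‖ ^ N := one_le_pow₀ hcon
  linarith

theorem zero_mem_of_conv {T : Op} {φ : Pt → Pt} {a : ℂ} (hT : ∀ f g : DA, T (f * g) = T f * T g)
    (h : Shr T a) : (0 : ℂ) ∈ spectrum ℂ T := by
  obtain ⟨l, hl, h0⟩ := TM.para_circles T hT ⟨a, h⟩ 0 le_rfl zero_le_one
  rw [norm_eq_zero] at h0
  rwa [h0] at hl

theorem fan_case {T : Op} {φ : Pt → Pt} (hT : ∀ f g : DA, T (f * g) = T f * T g)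
    (hP : IsComp T φ) (a : ℂ) (ha : ‖a‖ = 1) (hne : ∃ z : Pt, ((φ z : Pt) : ℂ) ≠ a)
    (hc : ConvTo φ a) (hz : ZeroStep φ a) :
    (∃ (h : ℂ → ℂ) (n : ℕ), DifferentiableOn ℂ h (ball 0 1) ∧
      (∀ z : Pt, ‖(z : ℂ)‖ < 1 → ‖((φ z : Pt) : ℂ)‖ < 1 ∧ h (φ z : Pt) = h z + 1) ∧
      Im φ a n ⊆ ball 0 1 ∧ InjOn h (Im φ a n) ∧
      spectrum ℂ T = {l | l = 0 ∨ ∃ ζ ∈ Du (h '' Im φ a n), l = Complex.exp (-ζ)}) ∧
    ∃ s t : ℝ, s ≤ t ∧ spectrum ℂ T = Fan s t := by
  have hN := disc_of_zeroStep hc hz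
  have hshr := shr_of hP ha hne hc hN
  obtain ⟨N, hS⟩ := t_SIT T φ a hP hshr
  have hSys := mods.sys T φ a N hS
  have h0 := zero_mem_of_conv (φ := φ) hT hshr
  obtain ⟨Φ, n, m, hΦd, hΦa, hinj, hb, hspec⟩ :=
    spec_of_small hS hSys h0 ((small_iff hS).2 hz)
  have hd : ∀ z : Pt, ((φ^[N + n] z : Pt) : ℂ) ≠ a → ‖((φ^[N + n] z : Pt) : ℂ)‖ < 1 := by
    intro z hz
    have e1 : φ^[N + n] z = φ^[N] (φ^[n] z) := Function.iterate_add_apply φ N n z
    rw [e1] at hz ⊢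
    rcases hS.disc (φ^[n] z) with h | h
    · exact absurd h hz
    · exact h
  have himg : (fun z => Φ (Cay a z)) '' Im φ a (N + n) = Φ '' KS a φ N n := by
    ext w
    constructor
    · rintro ⟨_, ⟨hz1, z, rfl⟩, rfl⟩
      exact ⟨_, ⟨z, hz1, rfl⟩, rfl⟩
    · rintro ⟨_, ⟨z, hz1, rfl⟩, rfl⟩
      exact ⟨_, ⟨hz1, z, rfl⟩, rfl⟩
  refine ⟨⟨fun z => Φ (Cay a z), N + n, ?_, ?_, ?_, ?_, ?_⟩, ?_⟩
  · refine DifferentiableOn.comp (t := HH) hΦd ?_ ?_
    · intro z hz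
      rw [mem_ball_zero_iff] at hz
      have h1 : a - z ≠ 0 := sub_ne_zero.2 (SYSx.ne_of_lt ha hz).symm
      refine DifferentiableAt.differentiableWithinAt ?_
      unfold Cay
      refine DifferentiableAt.div ?_ ?_ h1
      · fun_prop
      · fun_prop
    · intro z hz
      rw [mem_ball_zero_iff] at hz
      exact SYSx.cay_pos ha hz
  · intro z hz
    refine ⟨hS.inn z hz, ?_⟩
    have h1 := hΦa (Cay a z) (SYSx.cay_pos ha hz)
    rw [SYSx.ff_eq z ha (SYSx.ne_of_lt ha hz)] at h1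
    exact h1
  · rintro _ ⟨hz1, z, rfl⟩
    rw [mem_ball_zero_iff]
    exact hd z hz1
  · rintro _ ⟨hz1, z, rfl⟩ _ ⟨hz2, z', rfl⟩ h
    have h1 := hinj (⟨z, hz1, rfl⟩ : Cay a ((φ^[N + n] z : Pt) : ℂ) ∈ KS a φ N n)
      (⟨z', hz2, rfl⟩ : Cay a ((φ^[N + n] z' : Pt) : ℂ) ∈ KS a φ N n) h
    rw [← ic_cay a _ ha hz1, ← ic_cay a _ ha hz2, h1]
  · rw [himg]
    exact hspec
  · have hex : ∃ ζ ∈ Du (Φ '' KS a φ N n), ζ ≠ 0 := by
      obtain ⟨l, hl, h1⟩ := TM.para_circles T hT ⟨a, hshr⟩ (1 / 2) (by norm_num) (by norm_num)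
      rw [hspec] at hl
      rcases hl with rfl | ⟨ζ, hζ, rfl⟩
      · rw [norm_zero] at h1; norm_num at h1
      · refine ⟨ζ, hζ, ?_⟩
        rintro rfl
        rw [neg_zero, Complex.exp_zero, norm_one] at h1
        norm_num at h1
    obtain ⟨s, t, hst, hcone⟩ := du_cone hb hex
    refine ⟨s, t, hst, ?_⟩
    rw [hspec]
    exact fan_of_cone hcone

theorem disc_case {T : Op} {φ : Pt → Pt} (hT : ∀ f g : DA, T (f * g) = T f * T g)
    (hP : IsComp T φ) (hu : ¬ IsUnit T) (hnc : ∀ a : Pt, ∃ z, φ z ≠ a)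
    (hin : ∀ a : ℂ, ‖a‖ < 1 → ¬ ConvTo φ a)
    (hz : ∀ a : ℂ, ‖a‖ = 1 → ConvTo φ a → ¬ ZeroStep φ a) :
    spectrum ℂ T = closedBall (0 : ℂ) 1 := by
  obtain ⟨x, hx⟩ := KK_nonempty hP.cont
  by_cases hs : KK φ ⊆ {x}
  · have hconv := conv_of_singleton hP x hs
    have hc : ConvTo φ (x : ℂ) := (convTo_iff hP _).2 hconv
    have hx1 : ‖(x : ℂ)‖ = 1 :=
      le_antisymm (convTo_norm hc) (not_lt.1 fun h => hin _ h hc)
    by_cases hN : ∃ N : ℕ, ∀ z : Pt, ((φ^[N] z : Pt) : ℂ) = x ∨ ‖((φ^[N] z : Pt) : ℂ)‖ < 1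
    · have hne : ∃ z : Pt, ((φ z : Pt) : ℂ) ≠ x := by
        obtain ⟨z, hz⟩ := hnc x
        exact ⟨z, fun h => hz (Subtype.ext h)⟩
      have hshr := shr_of hP hx1 hne hc hN
      obtain ⟨N, hS⟩ := t_SIT T φ x hP hshr
      have hSys := mods.sys T φ x N hS
      have h0 := zero_mem_of_conv (φ := φ) hT hshr
      apply Set.Subset.antisymm
      · intro l hl
        rw [mem_closedBall_zero_iff]
        exact spec_norm_le hP hl
      · intro l hl
        rw [mem_closedBall_zero_iff] at hl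
        by_contra hcon
        by_cases hl0 : l = 0
        · rw [hl0] at hcon; exact hcon h0
        exact hz _ hx1 hc ((small_iff hS).1 (small_of_notMem hS hSys l hcon hl0 hl))
    · push Not at hN
      apply boundary_disc hP x hs
      intro N
      obtain ⟨z, hz1, hz2⟩ := hN N
      refine ⟨φ^[N] z, ⟨z, rfl⟩, fun hh => hz1 (by rw [hh]), ?_⟩
      exact le_antisymm (mem_closedBall_zero_iff.1 (φ^[N] z).2) hz2
  · obtain ⟨y, hy, hyx⟩ := Set.not_subset.1 hs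
    exact main_disc hP hu x y hx hy (fun h => hyx (by rw [h]; rfl))

theorem pow_eq_one_iff' {T : Op} {φ : Pt → Pt} (hP : IsComp T φ) (n : ℕ) :
    T ^ n = 1 ↔ φ^[n] = id := by
  constructor
  · intro h
    funext z
    have h1 := hP.pow n Z z
    rw [h] at h1
    exact Subtype.ext h1.symm
  · intro h
    refine ContinuousLinearMap.ext fun f => da_ext fun z => ?_
    rw [hP.pow, h]
    rfl

theorem roots_case {T : Op} {φ : Pt → Pt} (hP : IsComp T φ) (n : ℕ) (hn : 0 < n)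
    (hid : φ^[n] = id) (hmin : ∀ j, 0 < j → j < n → φ^[j] ≠ id) :
    spectrum ℂ T = {l : ℂ | l ^ n = 1} := by
  have h1 : T ^ n = 1 := (pow_eq_one_iff' hP n).2 hid
  have hu : IsUnit T := by
    refine isUnit_iff_exists.2 ⟨T ^ (n - 1), ?_, ?_⟩
    · rw [← pow_succ', Nat.sub_add_cancel hn, h1]
    · rw [← pow_succ, Nat.sub_add_cancel hn, h1]
  exact unit_roots hP hu n hn h1 fun j hj hjn h => hmin j hj hjn ((pow_eq_one_iff' hP j).1 h)

theorem circle_case {T : Op} {φ : Pt → Pt} (hP : IsComp T φ) (hu : IsUnit T)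
    (h : ∀ n, 0 < n → φ^[n] ≠ id) : spectrum ℂ T = sphere (0 : ℂ) 1 :=
  unit_circle hP hu fun n hn hn1 => h n hn ((pow_eq_one_iff' hP n).1 hn1)

theorem const_case {T : Op} {φ : Pt → Pt} (hP : IsComp T φ) (a : Pt) (h : ∀ z, φ z = a) :
    spectrum ℂ T = {0, 1} := by
  have hidem : T * T = T := by
    refine ContinuousLinearMap.ext fun f => da_ext fun z => ?_
    show (T (T f)).1 z = (T f).1 z
    rw [hP.eq, hP.eq, hP.eq, h, h]
  apply Set.Subset.antisymm
  · intro l hl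
    by_contra hcon
    rw [Set.mem_insert_iff, Set.mem_singleton_iff, not_or] at hcon
    exact hl (TM.idem_unit T hidem l hcon.1 hcon.2)
  · rintro l (rfl | rfl)
    · rw [spectrum.zero_mem_iff]
      intro hu
      have h1 := ContinuousLinearMap.isUnit_iff_bijective.1 hu
      have h2 : T Z = T (algebraMap ℂ DA (a : ℂ)) := da_ext fun z => by
        rw [hP.eq, hP.eq, h, Z_apply, algMap_apply]
      have h3 := h1.1 h2
      have h5 := congrArg (fun f : DA => f.1 ⟨0, by simp⟩) h3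
      have h6 := congrArg (fun f : DA => f.1 ⟨1, by simp⟩) h3
      simp only [Z_apply, algMap_apply] at h5 h6
      rw [← h5] at h6
      exact one_ne_zero h6
    · exact one_mem_spec hP

theorem inner_case {T : Op} {φ : Pt → Pt} (hP : IsComp T φ) (a : ℂ) (ha : ‖a‖ < 1)
    (hc : ConvTo φ a) : ∃ κ : ℂ, ‖κ‖ < 1 ∧
      HasDerivAt (ext fun z : Pt => ((φ z : Pt) : ℂ)) κ a ∧
      spectrum ℂ T = {l : ℂ | l = 0 ∨ ∃ j : ℕ, l = κ ^ j} := by
  obtain ⟨κ, h1, h2⟩ := interior_case2 hP ⟨a, mem_closedBall_zero_iff.2 ha.le⟩ ha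
    ((convTo_iff hP a).1 hc)
  exact ⟨κ, multiplier_lt hP ha hc h1, h1, h2⟩

/-- The sets on the list. -/
def Listed (X : Set ℂ) : Prop :=
  X = {0} ∨ (∃ n : ℕ, 0 < n ∧ X = {l | l ^ n = 1}) ∨ X = sphere 0 1 ∨
    (∃ κ : ℂ, ‖κ‖ < 1 ∧ X = {l | l = 0 ∨ ∃ j : ℕ, l = κ ^ j}) ∨
    (∃ s t : ℝ, s ≤ t ∧ X = Fan s t) ∨ X = closedBall 0 1

theorem Listed.semigroup {X : Set ℂ} (h : Listed X) : ∀ l ∈ X, ∀ m ∈ X, l * m ∈ X := by
  rcases h with rfl | ⟨n, -, rfl⟩ | rfl | ⟨κ, -, rfl⟩ | ⟨s, t, -, rfl⟩ | rfl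
  · rintro l rfl m _
    rw [zero_mul]; exact Set.mem_singleton _
  · intro l hl m hm
    rw [Set.mem_ofPred_eq] at hl hm ⊢
    rw [mul_pow, hl, hm, one_mul]
  · intro l hl m hm
    rw [mem_sphere_zero_iff_norm] at hl hm ⊢
    rw [norm_mul, hl, hm, one_mul]
  · rintro l (rfl | ⟨i, rfl⟩) m hm
    · left; rw [zero_mul]
    · rcases hm with rfl | ⟨j, rfl⟩
      · left; rw [mul_zero]
      · right; exact ⟨i + j, (pow_add κ i j).symm⟩
  · rintro l (rfl | ⟨x, y, h1, h2, h3, rfl⟩) m hm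
    · left; rw [zero_mul]
    · rcases hm with rfl | ⟨x', y', h1', h2', h3', rfl⟩
      · left; rw [mul_zero]
      · right
        refine ⟨x + x', y + y', add_nonneg h1 h1', by linarith, by linarith, ?_⟩
        rw [← Complex.exp_add]
        congr 1
        push_cast
        ring
  · intro l hl m hm
    rw [mem_closedBall_zero_iff] at hl hm ⊢
    rw [norm_mul]
    exact mul_le_one₀ hl (norm_nonneg _) hm

theorem listed {T : Op} {φ : Pt → Pt} (hT : ∀ f g : DA, T (f * g) = T f * T g)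
    (hP : IsComp T φ) : Listed (spectrum ℂ T) := by
  classical
  by_cases hu : IsUnit T
  · by_cases hper : ∃ n, 0 < n ∧ φ^[n] = id
    · exact Or.inr (Or.inl ⟨Nat.find hper, (Nat.find_spec hper).1,
        roots_case hP _ (Nat.find_spec hper).1 (Nat.find_spec hper).2
          fun j hj hjn hTj => Nat.find_min hper hjn ⟨hj, hTj⟩⟩)
    · push Not at hper
      exact Or.inr (Or.inr (Or.inl (circle_case hP hu hper)))
  · by_cases hnc : ∃ a : Pt, ∀ z, φ z = a
    · obtain ⟨a, ha⟩ := hnc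
      refine Or.inr (Or.inr (Or.inr (Or.inl ⟨0, by simp, ?_⟩)))
      rw [const_case hP a ha]
      ext l
      constructor
      · rintro (rfl | rfl)
        · exact Or.inl rfl
        · exact Or.inr ⟨0, by simp⟩
      · rintro (rfl | ⟨j, rfl⟩)
        · exact Or.inl rfl
        · rcases Nat.eq_zero_or_pos j with rfl | hj
          · right; simp
          · left; exact zero_pow hj.ne'
    · push Not at hnc
      by_cases hin : ∃ a : ℂ, ‖a‖ < 1 ∧ ConvTo φ a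
      · obtain ⟨a, ha, hc⟩ := hin
        obtain ⟨κ, h1, -, h2⟩ := inner_case hP a ha hc
        exact Or.inr (Or.inr (Or.inr (Or.inl ⟨κ, h1, h2⟩)))
      · push Not at hin
        by_cases hz : ∃ a : ℂ, ‖a‖ = 1 ∧ ConvTo φ a ∧ ZeroStep φ a
        · obtain ⟨a, ha, hc, hz⟩ := hz
          have hne : ∃ z : Pt, ((φ z : Pt) : ℂ) ≠ a := by
            obtain ⟨z, hz⟩ := hnc ⟨a, mem_closedBall_zero_iff.2 ha.le⟩
            exact ⟨z, fun h => hz (Subtype.ext h)⟩
          exact Or.inr (Or.inr (Or.inr (Or.inr (Or.inl (fan_case hT hP a ha hne hc hz).2))))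
        · push Not at hz
          exact Or.inr (Or.inr (Or.inr (Or.inr (Or.inr (disc_case hT hP hu hnc hin hz)))))

end Pool.Agent.KS6_19.Cls
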