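import Pool.Agent.KS6_19.DA.Cls

/-! # Hyperbolic steps (MP_ff3f8e_an) -/

open Set Metric Filter Topology Pool.Agent.Helper203.DS Pool.Agent.T6.H4.SG

noncomputable section

namespace Pool.Agent.KS6_19.Cls

/-- The iterates of `φ` converge uniformly to `a`. -/
def ConvTo (φ : Pt → Pt) (a : ℂ) : Prop :=
  ∀ ε : ℝ, 0 < ε → ∃ N : ℕ, ∀ n : ℕ, N ≤ n → ∀ z : Pt, ‖((φ^[n] z : Pt) : ℂ) - a‖ < ε

/-- The pseudohyperbolic length of the step from the `n`-th to the next iterate tends to zero,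
uniformly at all points that have not arrived at `a` before. -/
def ZeroStep (φ : Pt → Pt) (a : ℂ) : Prop :=
  ∀ ε : ℝ, 0 < ε → ∃ n : ℕ, ∀ z : Pt, ((φ^[n] z : Pt) : ℂ) ≠ a →
    ‖((φ^[n + 1] z : Pt) : ℂ) - (φ^[n] z : Pt)‖ ≤
      ε * ‖1 - (starRingEnd ℂ) ((φ^[n] z : Pt) : ℂ) * (φ^[n + 1] z : Pt)‖

theorem step_mono {φ : Pt → Pt} {a : ℂ} {ε : ℝ} {n : ℕ}
    (h : ∀ z : Pt, ((φ^[n] z : Pt) : ℂ) ≠ a →
    ‖((φ^[n + 1] z : Pt) : ℂ) - (φ^[n] z : Pt)‖ ≤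
      ε * ‖1 - (starRingEnd ℂ) ((φ^[n] z : Pt) : ℂ) * (φ^[n + 1] z : Pt)‖) (k : ℕ) (z : Pt)
    (hz : ((φ^[n + k] z : Pt) : ℂ) ≠ a) :
    ‖((φ^[n + k + 1] z : Pt) : ℂ) - (φ^[n + k] z : Pt)‖ ≤
      ε * ‖1 - (starRingEnd ℂ) ((φ^[n + k] z : Pt) : ℂ) * (φ^[n + k + 1] z : Pt)‖ := by
  have e1 : φ^[n + k] z = φ^[n] (φ^[k] z) := Function.iterate_add_apply φ n k z
  have e2 : φ^[n + k + 1] z = φ^[n + 1] (φ^[k] z) := by
    rw [show n + k + 1 = (n + 1) + k by ring]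
    exact Function.iterate_add_apply φ (n + 1) k z
  rw [e1] at hz
  rw [e1, e2]
  exact h _ hz

theorem convTo_iff {T : Op} {φ : Pt → Pt} (h : IsComp T φ) (a : ℂ) :
    ConvTo φ a ↔ Tendsto (fun n : ℕ => (T ^ n) Z) atTop (𝓝 (algebraMap ℂ DA a)) := by
  constructor
  · intro hc
    rw [Metric.tendsto_atTop]
    intro ε hε
    obtain ⟨N, hN⟩ := hc (ε / 2) (by positivity)
    refine ⟨N, fun n hn => ?_⟩
    rw [dist_eq_norm]
    refine lt_of_le_of_lt (norm_le_of (M := ε / 2) (by positivity) fun z => ?_) (by linarith)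
    rw [sub_apply, h.pow, Z_apply, algMap_apply]
    exact (hN n hn z).le
  · intro hc ε hε
    rw [Metric.tendsto_atTop] at hc
    obtain ⟨N, hN⟩ := hc ε hε
    refine ⟨N, fun n hn z => ?_⟩
    have h1 := hN n hn
    rw [dist_eq_norm] at h1
    have h2 := norm_apply_le ((T ^ n) Z - algebraMap ℂ DA a) z
    rw [sub_apply, h.pow, Z_apply, algMap_apply] at h2
    linarith

theorem convTo_norm {φ : Pt → Pt} {a : ℂ} (h : ConvTo φ a) : ‖a‖ ≤ 1 := by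
  by_contra hcon
  push Not at hcon
  obtain ⟨N, hN⟩ := h (‖a‖ - 1) (by linarith)
  have h1 := hN N le_rfl ⟨0, by simp⟩
  have h2 : ‖((φ^[N] ⟨0, by simp⟩ : Pt) : ℂ)‖ ≤ 1 := mem_closedBall_zero_iff.1 (Subtype.property _)
  have h3 : ‖a‖ ≤ ‖((φ^[N] ⟨0, by simp⟩ : Pt) : ℂ) - a‖ + ‖((φ^[N] ⟨0, by simp⟩ : Pt) : ℂ)‖ := by
    rw [norm_sub_rev]
    calc ‖a‖ = ‖(a - ((φ^[N] ⟨0, by simp⟩ : Pt) : ℂ)) + ((φ^[N] ⟨0, by simp⟩ : Pt) : ℂ)‖ := by
          rw [sub_add_cancel]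
      _ ≤ _ := norm_add_le _ _
  linarith

theorem fixed_of_step {φ : Pt → Pt} {a : ℂ} (hc : ConvTo φ a) (u : Pt) (h : φ u = u) :
    (u : ℂ) = a := by
  have h1 : ∀ n : ℕ, φ^[n] u = u := fun n => Function.iterate_fixed h n
  by_contra hne
  obtain ⟨N, hN⟩ := hc ‖(u : ℂ) - a‖ (norm_pos_iff.2 (sub_ne_zero.2 hne))
  have h2 := hN N le_rfl u
  rw [h1] at h2
  exact lt_irrefl _ h2

theorem disc_of_zeroStep {φ : Pt → Pt} {a : ℂ} (hc : ConvTo φ a) (h : ZeroStep φ a) :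
    ∃ N : ℕ, ∀ z : Pt, ((φ^[N] z : Pt) : ℂ) = a ∨ ‖((φ^[N] z : Pt) : ℂ)‖ < 1 := by
  obtain ⟨n, hn⟩ := h (1 / 2) (by norm_num)
  refine ⟨n, fun z => ?_⟩
  by_contra hcon
  push Not at hcon
  obtain ⟨h1, h2⟩ := hcon
  have h3 : ‖((φ^[n] z : Pt) : ℂ)‖ = 1 :=
    le_antisymm (mem_closedBall_zero_iff.1 (φ^[n] z).2) h2
  have h4 := hn z h1
  obtain ⟨u, hu⟩ : ∃ u : ℂ, u = ((φ^[n] z : Pt) : ℂ) := ⟨_, rfl⟩
  obtain ⟨v, hv⟩ : ∃ v : ℂ, v = ((φ^[n + 1] z : Pt) : ℂ) := ⟨_, rfl⟩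
  rw [← hu, ← hv] at h4
  rw [← hu] at h3
  have h5 : ‖1 - (starRingEnd ℂ) u * v‖ = ‖v - u‖ := by
    have e : (1 : ℂ) = (starRingEnd ℂ) u * u := by
      rw [mul_comm, Complex.mul_conj, Complex.normSq_eq_norm_sq, h3]; norm_num
    rw [e, ← mul_sub, norm_mul, Complex.norm_conj, h3, one_mul, norm_sub_rev]
  rw [h5] at h4
  have h6 : ‖v - u‖ = 0 := by
    have := norm_nonneg (v - u)
    linarith
  have h7 : v = u := sub_eq_zero.1 (norm_eq_zero.1 h6)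
  apply h1
  refine fixed_of_step hc (φ^[n] z) (Subtype.ext ?_)
  rw [← Function.iterate_succ_apply' φ n z]
  rw [← hu, ← h7, hv]

theorem shr_of {T : Op} {φ : Pt → Pt} {a : ℂ} (hP : IsComp T φ) (ha : ‖a‖ = 1)
    (hne : ∃ z : Pt, ((φ z : Pt) : ℂ) ≠ a) (hc : ConvTo φ a)
    (hN : ∃ N : ℕ, ∀ z : Pt, ((φ^[N] z : Pt) : ℂ) = a ∨ ‖((φ^[N] z : Pt) : ℂ)‖ < 1) : Shr T a := by
  refine ⟨ha, ?_, (convTo_iff hP a).1 hc, ?_⟩
  · intro h
    obtain ⟨z, hz⟩ := hne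
    apply hz
    have h1 := congrArg (fun f : DA => f.1 z) h
    simp only [hP.eq, Z_apply, algMap_apply] at h1
    exact h1
  · obtain ⟨N, hN⟩ := hN
    refine ⟨N, fun z => ?_⟩
    rw [hP.pow, Z_apply]
    exact hN z

theorem cay_sub (a u v : ℂ) (hu : u ≠ a) (hv : v ≠ a) :
    Cay a v - Cay a u = 2 * a * (v - u) / ((a - v) * (a - u)) := by
  have h1 : a - u ≠ 0 := sub_ne_zero.2 hu.symm
  have h2 : a - v ≠ 0 := sub_ne_zero.2 hv.symm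
  unfold Cay
  field_simp
  ring

theorem cay_add (a u v : ℂ) (ha : ‖a‖ = 1) (hu : u ≠ a) (hv : v ≠ a) :
    Cay a v + (starRingEnd ℂ) (Cay a u) =
      2 * (1 - (starRingEnd ℂ) u * v) / ((a - v) * (starRingEnd ℂ) (a - u)) := by
  have h1 : a - u ≠ 0 := sub_ne_zero.2 hu.symm
  have h2 : a - v ≠ 0 := sub_ne_zero.2 hv.symm
  have h3 : (starRingEnd ℂ) a - (starRingEnd ℂ) u ≠ 0 := by
    rw [← map_sub]
    exact (map_ne_zero _).2 h1
  have e : a * (starRingEnd ℂ) a = 1 := by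
    rw [Complex.mul_conj, Complex.normSq_eq_norm_sq, ha]; norm_num
  unfold Cay
  rw [map_div₀, map_sub, map_add]
  rw [div_add_div _ _ h2 h3]
  congr 1
  linear_combination 2 * e

theorem step_le {a u v : ℂ} (ha : ‖a‖ = 1) (hu : ‖u‖ < 1) (hv : ‖v‖ < 1) {c : ℝ}
    (h : ‖Cay a v - Cay a u‖ ≤ c * (Cay a u).re) :
    ‖v - u‖ ≤ c * ‖1 - (starRingEnd ℂ) u * v‖ := by
  have hua := SYSx.ne_of_lt ha hu
  have hva := SYSx.ne_of_lt ha hv
  have h1 : 0 < ‖a - u‖ := norm_pos_iff.2 (sub_ne_zero.2 hua.symm)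
  have h2 : 0 < ‖a - v‖ := norm_pos_iff.2 (sub_ne_zero.2 hva.symm)
  have hup := SYSx.cay_pos ha hu
  have hvp := SYSx.cay_pos ha hv
  have hc : 0 ≤ c := by
    by_contra hcon
    push Not at hcon
    have := norm_nonneg (Cay a v - Cay a u)
    nlinarith
  have h3 : (Cay a u).re ≤ ‖Cay a v + (starRingEnd ℂ) (Cay a u)‖ := by
    refine le_trans ?_ (Complex.re_le_norm _)
    rw [Complex.add_re, Complex.conj_re]
    linarith
  have h4 : ‖Cay a v - Cay a u‖ ≤ c * ‖Cay a v + (starRingEnd ℂ) (Cay a u)‖ :=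
    h.trans (mul_le_mul_of_nonneg_left h3 hc)
  rw [cay_sub a u v hua hva, cay_add a u v ha hua hva, norm_div, norm_div, norm_mul, norm_mul,
    norm_mul, norm_mul, norm_mul, Complex.norm_conj, ha] at h4
  have h5 : 0 < ‖a - v‖ * ‖a - u‖ := mul_pos h2 h1
  rw [mul_div_assoc', div_le_div_iff_of_pos_right h5] at h4
  norm_num at h4
  linarith

theorem step_ge {a u v : ℂ} (ha : ‖a‖ = 1) (hu : ‖u‖ < 1) (hv : ‖v‖ < 1) {c ε : ℝ}
    (hε : ε ≤ 1 / 2) (hc : 4 * ε ≤ c) (h : ‖v - u‖ ≤ ε * ‖1 - (starRingEnd ℂ) u * v‖) :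
    ‖Cay a v - Cay a u‖ ≤ c * (Cay a u).re := by
  have hua := SYSx.ne_of_lt ha hu
  have hva := SYSx.ne_of_lt ha hv
  have h1 : 0 < ‖a - u‖ := norm_pos_iff.2 (sub_ne_zero.2 hua.symm)
  have h2 : 0 < ‖a - v‖ := norm_pos_iff.2 (sub_ne_zero.2 hva.symm)
  have hup := SYSx.cay_pos ha hu
  have h5 : 0 < ‖a - v‖ * ‖a - u‖ := mul_pos h2 h1
  have h4 : ‖Cay a v - Cay a u‖ ≤ ε * ‖Cay a v + (starRingEnd ℂ) (Cay a u)‖ := by
    rw [cay_sub a u v hua hva, cay_add a u v ha hua hva, norm_div, norm_div, norm_mul, norm_mul,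
      norm_mul, norm_mul, norm_mul, Complex.norm_conj, ha, mul_div_assoc',
      div_le_div_iff_of_pos_right h5]
    norm_num
    linarith
  have h6 : ‖Cay a v + (starRingEnd ℂ) (Cay a u)‖ ≤ ‖Cay a v - Cay a u‖ + 2 * (Cay a u).re := by
    have e : Cay a v + (starRingEnd ℂ) (Cay a u) =
        (Cay a v - Cay a u) + ((2 * (Cay a u).re : ℝ) : ℂ) := by
      rw [← Complex.add_conj]; ring
    rw [e]
    refine (norm_add_le _ _).trans ?_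
    rw [Complex.norm_real, Real.norm_eq_abs, abs_of_pos (by linarith : (0:ℝ) < 2 * (Cay a u).re)]
  have hd := norm_nonneg (Cay a v - Cay a u)
  have hε0 : 0 ≤ ε ∨ ε < 0 := le_or_gt 0 ε
  rcases hε0 with h0 | h0
  · have h7 : ‖Cay a v - Cay a u‖ ≤ ε * (‖Cay a v - Cay a u‖ + 2 * (Cay a u).re) :=
      h4.trans (mul_le_mul_of_nonneg_left h6 h0)
    nlinarith
  · have h8 : 0 ≤ ‖Cay a v + (starRingEnd ℂ) (Cay a u)‖ := norm_nonneg _
    have h9 : ‖Cay a v - Cay a u‖ ≤ 0 := h4.trans (mul_nonpos_of_nonpos_of_nonneg h0.le h8)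
    have h10 : ‖Cay a v - Cay a u‖ = 0 := le_antisymm h9 hd
    have h11 : 0 < ‖Cay a v + (starRingEnd ℂ) (Cay a u)‖ := by
      refine lt_of_lt_of_le ?_ (Complex.re_le_norm _)
      rw [Complex.add_re, Complex.conj_re]
      have := SYSx.cay_pos ha hv
      linarith
    nlinarith

theorem small_iff {T : Op} {φ : Pt → Pt} {a : ℂ} {N : ℕ} (hS : Sit T φ a N) :
    Small (FF a φ) (KS a φ N) ↔ ZeroStep φ a := by
  have hd : ∀ (n : ℕ) (z : Pt), ((φ^[N + n] z : Pt) : ℂ) ≠ a → ‖((φ^[N + n] z : Pt) : ℂ)‖ < 1 := by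
    intro n z hz
    have e1 : φ^[N + n] z = φ^[N] (φ^[n] z) := Function.iterate_add_apply φ N n z
    rw [e1] at hz ⊢
    rcases hS.disc (φ^[n] z) with h | h
    · exact absurd h hz
    · exact h
  constructor
  · intro h ε hε
    obtain ⟨n, hn⟩ := h ε hε
    refine ⟨N + n, fun z hz => ?_⟩
    have h1 := hd n z hz
    have h2 := hS.inn _ h1
    have h3 := hn (Cay a ((φ^[N + n] z : Pt) : ℂ)) ⟨z, hz, rfl⟩
    rw [SYSx.ff_eq _ hS.norm hz] at h3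
    have h4 := step_le hS.norm h1 h2 h3
    rw [Function.iterate_succ_apply' φ (N + n) z]
    exact h4
  · intro h c hc
    obtain ⟨k, hk⟩ := h (min (1 / 2) (c / 4)) (lt_min (by norm_num) (by positivity))
    refine ⟨k, ?_⟩
    rintro w ⟨z, hz, rfl⟩
    have h1 := hd k z hz
    have h2 := hS.inn _ h1
    rw [SYSx.ff_eq _ hS.norm hz]
    have hkk : ((φ^[k + N] z : Pt) : ℂ) ≠ a := by rw [add_comm]; exact hz
    have h3 := step_mono hk N z hkk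
    rw [Function.iterate_succ_apply' φ (k + N) z, add_comm k N] at h3
    refine step_ge hS.norm h1 h2 (min_le_left _ _) ?_ h3
    have := min_le_right (1 / 2 : ℝ) (c / 4)
    linarith

end Pool.Agent.KS6_19.Cls
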